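import Mathlib
import Pool.Agent.Helper69.TS.Stmts

/-!
# Partners in an exceptional set
-/

set_option autoImplicit false

namespace Pool.Agent.Helper7.TS.exc

open Finset Pool.Agent.Helper69.TS

/-- The flip of a pair of partners. -/
theorem flip {p q t Q : ℕ} (_hp : Q ≤ p) (hq : Q ≤ q) (ht : t ∈ Ico 1 p)
    (hw : t * q % p < Q) :
    t * q / p ∈ Ico 1 q ∧ (q - t * q / p) * p % q = t * q % p := by
  rw [mem_Ico] at ht
  have h1 : p * (t * q / p) + t * q % p = t * q := Nat.div_add_mod _ _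
  have hq0 : 0 < q := by omega
  have h2 : t * q / p < q := by
    apply Nat.div_lt_of_lt_mul
    exact Nat.mul_lt_mul_of_pos_right ht.2 hq0
  have h3 : 1 ≤ t * q / p := by
    rw [Nat.one_le_iff_ne_zero]
    intro h0
    rw [h0, mul_zero, zero_add] at h1
    have h4 : q ≤ t * q := Nat.le_mul_of_pos_left q ht.1
    omega
  refine ⟨by rw [mem_Ico]; exact ⟨h3, h2⟩, ?_⟩
  have h5 : (q - t * q / p) * p = q * (p - t) + t * q % p := by
    have h6 : (q - t * q / p) * p + p * (t * q / p) = q * p := by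
      rw [mul_comm p, ← Nat.add_mul, Nat.sub_add_cancel h2.le]
    have h7 : q * (p - t) + t * q = q * p := by
      rw [mul_comm t, ← Nat.mul_add, Nat.sub_add_cancel ht.2.le]
    omega
  rw [h5, Nat.mul_add_mod, Nat.mod_eq_of_lt (by omega)]

open Classical in
theorem swap (c : Cfg) (hc : c.Good) (W : Finset ℕ) (hW : ∀ w ∈ W, 1 ≤ w ∧ w < c.Q)
    (X : Finset Pt) {p q : ℕ} (hp : p ∈ c.P) (hq : q ∈ c.P) :
    ∑ t ∈ Ico 1 p, (if t * q % p ∈ W ∧ mate p t q ∈ X then c.f p q else 0) ≤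
      ∑ t ∈ Ico 1 q, (if (⟨q, t⟩ : Pt) ∈ X ∧ (q - t) * p % q ∈ W then c.f q p else 0) := by
  rw [← Finset.sum_filter, ← Finset.sum_filter, Finset.sum_const, Finset.sum_const,
    nsmul_eq_mul, nsmul_eq_mul, hc.fsymm p hp q hq]
  refine mul_le_mul_of_nonneg_right ?_ (hc.f0 q p)
  have hQp := hc.hlow p hp
  have hQq := hc.hlow q hq
  have : ((Ico 1 p).filter (fun t => t * q % p ∈ W ∧ mate p t q ∈ X)).card ≤
      ((Ico 1 q).filter (fun t => (⟨q, t⟩ : Pt) ∈ X ∧ (q - t) * p % q ∈ W)).card := by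
    apply Finset.card_le_card_of_injOn (fun t => t * q / p)
    · intro t ht
      rw [Finset.mem_coe, mem_filter] at ht
      have hfl := flip hQp hQq ht.1 (hW _ ht.2.1).2
      rw [Finset.mem_coe, mem_filter]
      refine ⟨hfl.1, ht.2.2, ?_⟩
      dsimp only
      rw [hfl.2]
      exact ht.2.1
    · intro t ht s hs h
      rw [Finset.mem_coe, mem_filter] at ht hs
      have h1 := flip hQp hQq ht.1 (hW _ ht.2.1).2
      have h2 := flip hQp hQq hs.1 (hW _ hs.2.1).2
      dsimp only at h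
      have h3 : t * q % p = s * q % p := by rw [← h1.2, ← h2.2, h]
      have h4 : t * q = s * q := by
        rw [← Nat.div_add_mod (t * q) p, ← Nat.div_add_mod (s * q) p, h, h3]
      have hq0 : 0 < q := by
        have := (hc.hprime q hq).pos
        exact this
      exact Nat.eq_of_mul_eq_mul_right hq0 h4
  exact_mod_cast this

open Classical in
/-- The sum is at most the sum of the numbers of partners of the points of `X`. -/
theorem total_le (c : Cfg) (hc : c.Good) (W : Finset ℕ) (hW : ∀ w ∈ W, 1 ≤ w ∧ w < c.Q)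
    (X : Finset Pt) :
    ∑ s ∈ c.F, (∑ q ∈ c.P, if s.2 * q % s.1 ∈ W ∧ mate s.1 s.2 q ∈ X then c.f s.1 q else 0) ≤
      ∑ q ∈ c.P, ∑ t ∈ Ico 1 q, (if (⟨q, t⟩ : Pt) ∈ X then 1 else 0) * c.V W q (q - t) := by
  calc ∑ s ∈ c.F, (∑ q ∈ c.P, if s.2 * q % s.1 ∈ W ∧ mate s.1 s.2 q ∈ X then c.f s.1 q else 0)
      = ∑ p ∈ c.P, ∑ t ∈ Ico 1 p, ∑ q ∈ c.P,
          (if t * q % p ∈ W ∧ mate p t q ∈ X then c.f p q else 0) := by
        rw [Cfg.F, Finset.sum_sigma]
    _ = ∑ p ∈ c.P, ∑ q ∈ c.P, ∑ t ∈ Ico 1 p,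
          (if t * q % p ∈ W ∧ mate p t q ∈ X then c.f p q else 0) :=
        Finset.sum_congr rfl fun p _ => Finset.sum_comm
    _ ≤ ∑ p ∈ c.P, ∑ q ∈ c.P, ∑ t ∈ Ico 1 q,
          (if (⟨q, t⟩ : Pt) ∈ X ∧ (q - t) * p % q ∈ W then c.f q p else 0) :=
        Finset.sum_le_sum fun p hp => Finset.sum_le_sum fun q hq => swap c hc W hW X hp hq
    _ = ∑ q ∈ c.P, ∑ p ∈ c.P, ∑ t ∈ Ico 1 q,
          (if (⟨q, t⟩ : Pt) ∈ X ∧ (q - t) * p % q ∈ W then c.f q p else 0) := Finset.sum_comm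
    _ = ∑ q ∈ c.P, ∑ t ∈ Ico 1 q, ∑ p ∈ c.P,
          (if (⟨q, t⟩ : Pt) ∈ X ∧ (q - t) * p % q ∈ W then c.f q p else 0) :=
        Finset.sum_congr rfl fun q _ => Finset.sum_comm
    _ = _ := by
        refine Finset.sum_congr rfl fun q _ => Finset.sum_congr rfl fun t _ => ?_
        rw [Cfg.V]
        by_cases h : (⟨q, t⟩ : Pt) ∈ X
        · simp only [h, true_and, if_true, one_mul]
        · simp only [h, false_and, if_false, zero_mul, Finset.sum_const_zero]

theorem V_nonneg (c : Cfg) (hc : c.Good) (W : Finset ℕ) (q t : ℕ) : 0 ≤ c.V W q t := by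
  rw [Cfg.V]
  refine Finset.sum_nonneg fun p _ => ?_
  split_ifs
  · exact hc.f0 _ _
  · exact le_refl 0

theorem exc (hsum : S_sum_V) (hsq : S_sq_le) : S_exc := by
  classical
  intro c hc W hW hS X _
  have hQ : (128 : ℝ) ≤ c.Q := by
    have h1 := hc.hQ
    have h2 := hc.hm
    have : 128 ≤ c.Q := by omega
    exact_mod_cast this
  have hm : (2 : ℝ) ≤ c.m := by exact_mod_cast hc.hm
  have hE := hc.hE
  have hκ : 0 ≤ c.κ := by
    rw [Cfg.κ]
    positivity
  have hκ' : c.κ ≤ c.E / (16 * c.Q) := by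
    rw [Cfg.κ]
    apply div_le_div_of_nonneg_left hE.le (by positivity)
    nlinarith
  have hWq : ∀ q ∈ c.P, ∀ w ∈ W, 1 ≤ w ∧ w < q := fun q hq w hw =>
    ⟨(hW w hw).1, lt_of_lt_of_le (hW w hw).2 (hc.hlow q hq)⟩
  refine (total_le c hc W hW X).trans ?_
  have hsplit : ∑ q ∈ c.P, ∑ t ∈ Ico 1 q,
      (if (⟨q, t⟩ : Pt) ∈ X then (1 : ℝ) else 0) * c.V W q (q - t) =
      ∑ q ∈ c.B, ∑ t ∈ Ico 1 q, (if (⟨q, t⟩ : Pt) ∈ X then 1 else 0) * c.V W q (q - t) +
      ∑ q ∈ c.P \ c.B, ∑ t ∈ Ico 1 q,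
        (if (⟨q, t⟩ : Pt) ∈ X then 1 else 0) * c.V W q (q - t) := by
    rw [add_comm, Finset.sum_sdiff hc.hBP]
  rw [hsplit]
  apply add_le_add
  · -- exceptional moduli
    have h1 : ∀ q ∈ c.B, ∑ t ∈ Ico 1 q,
        (if (⟨q, t⟩ : Pt) ∈ X then (1 : ℝ) else 0) * c.V W q (q - t) ≤
        2 * c.E * W.card := by
      intro q hq
      have hqP := hc.hBP hq
      calc ∑ t ∈ Ico 1 q, (if (⟨q, t⟩ : Pt) ∈ X then (1 : ℝ) else 0) * c.V W q (q - t)
          ≤ ∑ t ∈ Ico 1 q, c.V W q (q - t) := by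
            refine Finset.sum_le_sum fun t _ => ?_
            have := V_nonneg c hc W q (q - t)
            split_ifs
            · rw [one_mul]
            · rw [zero_mul]
              exact this
        _ = ∑ t ∈ Ico 1 q, c.V W q t := by
            rw [Finset.sum_Ico_reflect (fun t => c.V W q t) 1 (by omega)]
            congr 2
            omega
        _ = W.card * ∑ p ∈ c.P, c.f q p := hsum c hc q hqP W (hWq q hqP) (c.f q) (hc.fdiag q)
        _ ≤ W.card * (2 * c.E) :=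
            mul_le_mul_of_nonneg_left (hc.degU q hqP) (by positivity)
        _ = 2 * c.E * W.card := by ring
    calc _ ≤ ∑ q ∈ c.B, 2 * c.E * (W.card : ℝ) := Finset.sum_le_sum h1
      _ = 2 * c.E * W.card * c.B.card := by
          rw [Finset.sum_const, nsmul_eq_mul]
          ring
  · -- the others
    have h2 : ∀ q ∈ c.P \ c.B, ∑ t ∈ Ico 1 q, c.V W q (q - t) ^ 2 ≤
        5 / c.Q * ((W.card : ℝ) * c.E) ^ 2 := by
      intro q hq
      rw [mem_sdiff] at hq
      have hq1 : (c.Q : ℝ) - 1 ≤ (q : ℝ) - 1 := by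
        have : (c.Q : ℝ) ≤ q := by exact_mod_cast hc.hlow q hq.1
        linarith
      have hdeg0 : 0 ≤ ∑ p ∈ c.P, c.f q p := Finset.sum_nonneg fun p _ => hc.f0 q p
      have hdeg := hc.degU q hq.1
      calc ∑ t ∈ Ico 1 q, c.V W q (q - t) ^ 2
          = ∑ t ∈ Ico 1 q, c.V W q t ^ 2 := by
            rw [Finset.sum_Ico_reflect (fun t => c.V W q t ^ 2) 1 (by omega)]
            congr 2
            omega
        _ ≤ (W.card : ℝ) ^ 2 * ((∑ p ∈ c.P, c.f q p) ^ 2 / ((q : ℝ) - 1) +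
              c.κ * ∑ p ∈ c.P, c.f q p) :=
            hsq c hc q hq.1 W c.κ (hWq q hq.1) hκ (hS q hq.1 hq.2) (c.f q) (hc.fdiag q)
              (hc.f0 q) (hc.f1 q)
        _ ≤ (W.card : ℝ) ^ 2 * ((2 * c.E) ^ 2 / ((c.Q : ℝ) - 1) +
              c.E / (16 * c.Q) * (2 * c.E)) := by
            apply mul_le_mul_of_nonneg_left _ (by positivity)
            apply add_le_add
            · apply div_le_div₀ (by positivity) _ (by linarith) hq1
              exact pow_le_pow_left₀ hdeg0 hdeg 2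
            · exact mul_le_mul hκ' hdeg hdeg0 (by positivity)
        _ ≤ 5 / c.Q * ((W.card : ℝ) * c.E) ^ 2 := by
            have h3 : (2 * c.E) ^ 2 / ((c.Q : ℝ) - 1) ≤ c.E ^ 2 * ((4 + 1 / 2) / c.Q) := by
              rw [div_le_iff₀ (by linarith)]
              have : (4 : ℝ) ≤ (4 + 1 / 2) / c.Q * (c.Q - 1) := by
                rw [div_mul_eq_mul_div, le_div_iff₀ (by linarith)]
                linarith
              nlinarith [sq_nonneg c.E]
            have h4 : c.E / (16 * c.Q) * (2 * c.E) = c.E ^ 2 * ((1 / 8) / c.Q) := by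
              field_simp
              ring
            have h5 : c.E ^ 2 * ((4 + 1 / 2) / c.Q) + c.E ^ 2 * ((1 / 8) / c.Q) ≤
                c.E ^ 2 * (5 / c.Q) := by
              rw [← mul_add, ← add_div]
              apply mul_le_mul_of_nonneg_left _ (by positivity)
              apply div_le_div_of_nonneg_right _ (by positivity)
              norm_num
            calc (W.card : ℝ) ^ 2 * ((2 * c.E) ^ 2 / ((c.Q : ℝ) - 1) +
                  c.E / (16 * c.Q) * (2 * c.E))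
                ≤ (W.card : ℝ) ^ 2 * (c.E ^ 2 * (5 / c.Q)) := by
                  apply mul_le_mul_of_nonneg_left _ (by positivity)
                  rw [h4]
                  linarith
              _ = _ := by ring
    set T : Finset Pt := (c.P \ c.B).sigma (fun q => Ico 1 q) with hT
    have h6 : ∑ q ∈ c.P \ c.B, ∑ t ∈ Ico 1 q,
        (if (⟨q, t⟩ : Pt) ∈ X then (1 : ℝ) else 0) * c.V W q (q - t) =
        ∑ s ∈ T, (if s ∈ X then (1 : ℝ) else 0) * c.V W s.1 (s.1 - s.2) := by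
      rw [hT, Finset.sum_sigma]
    have h7 : ∑ s ∈ T, (if s ∈ X then (1 : ℝ) else 0) ^ 2 ≤ X.card := by
      have h8 : ∀ s ∈ T, (if s ∈ X then (1 : ℝ) else 0) ^ 2 = if s ∈ X then (1 : ℝ) else 0 := by
        intro s _
        split_ifs <;> norm_num
      rw [Finset.sum_congr rfl h8, ← Finset.sum_filter, Finset.sum_const, nsmul_eq_mul, mul_one]
      have : (T.filter (fun s => s ∈ X)) ⊆ X := fun s hs => (mem_filter.1 hs).2
      exact_mod_cast Finset.card_le_card this
    have h9 : ∑ s ∈ T, c.V W s.1 (s.1 - s.2) ^ 2 ≤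
        c.P.card * (5 / c.Q * ((W.card : ℝ) * c.E) ^ 2) := by
      rw [hT, Finset.sum_sigma]
      calc _ ≤ ∑ q ∈ c.P \ c.B, 5 / c.Q * ((W.card : ℝ) * c.E) ^ 2 := Finset.sum_le_sum h2
        _ = ((c.P \ c.B).card : ℝ) * (5 / c.Q * ((W.card : ℝ) * c.E) ^ 2) := by
            rw [Finset.sum_const, nsmul_eq_mul]
        _ ≤ _ := by
            apply mul_le_mul_of_nonneg_right _ (by positivity)
            exact_mod_cast Finset.card_le_card Finset.sdiff_subset
    rw [h6]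
    have h10 : (∑ s ∈ T, (if s ∈ X then (1 : ℝ) else 0) * c.V W s.1 (s.1 - s.2)) ^ 2 ≤
        (5 * X.card * c.P.card / c.Q) * ((W.card : ℝ) * c.E) ^ 2 := by
      calc _ ≤ (∑ s ∈ T, (if s ∈ X then (1 : ℝ) else 0) ^ 2) *
            ∑ s ∈ T, c.V W s.1 (s.1 - s.2) ^ 2 := Finset.sum_mul_sq_le_sq_mul_sq _ _ _
        _ ≤ X.card * (c.P.card * (5 / c.Q * ((W.card : ℝ) * c.E) ^ 2)) :=
            mul_le_mul h7 h9 (Finset.sum_nonneg fun s _ => sq_nonneg _) (by positivity)
        _ = _ := by ring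
    have h11 := Real.abs_le_sqrt h10
    rw [Real.sqrt_mul (by positivity), Real.sqrt_sq (by positivity)] at h11
    exact (le_abs_self _).trans h11

end Pool.Agent.Helper7.TS.exc
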