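import Mathlib
import Pool.Agent.Helper69.TS.Defs

/-!
# Equidistribution from character sums
-/

set_option autoImplicit false

namespace Pool.Agent.Helper7.TS.spec_of_char

open Finset Pool.Agent.Helper69.TS

theorem isUnit_of_mem {p : ℕ} (hp : p.Prime) {n : ℕ} (hn : n ∈ Ico 1 p) :
    IsUnit (n : ZMod p) := by
  have := Fact.mk hp
  rw [mem_Ico] at hn
  rw [isUnit_iff_ne_zero]
  intro h
  rw [ZMod.natCast_eq_zero_iff] at h
  have := Nat.le_of_dvd (by omega) h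
  omega

theorem cast_inj {p : ℕ} {m n : ℕ} (hm : m ∈ Ico 1 p) (hn : n ∈ Ico 1 p)
    (h : (m : ZMod p) = (n : ZMod p)) : m = n := by
  rw [mem_Ico] at hm hn
  rw [ZMod.natCast_eq_natCast_iff] at h
  exact Nat.ModEq.eq_of_lt_of_lt h hm.2 hn.2

theorem char_inv {p : ℕ} (χ : DirichletCharacter ℂ p) (a : ZMod p) (ha : IsUnit a) :
    χ a⁻¹ = (starRingEnd ℂ) (χ a) := by
  have h1 : ‖χ a‖ = 1 := by
    obtain ⟨u, rfl⟩ := ha
    exact DirichletCharacter.unit_norm_eq_one χ u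
  have h2 : χ a⁻¹ * χ a = 1 := by
    rw [← map_mul, ZMod.inv_mul_of_unit a ha, map_one]
  have h3 : (starRingEnd ℂ) (χ a) * χ a = 1 := by
    rw [← Complex.normSq_eq_conj_mul_self, Complex.normSq_eq_norm_sq, h1]
    norm_num
  have h4 : χ a ≠ 0 := by
    intro h
    rw [h, norm_zero] at h1
    exact zero_ne_one h1
  exact mul_right_cancel₀ h4 (h2.trans h3.symm)

/-- Parseval. -/
theorem parseval {p : ℕ} (hp : p.Prime) (A : ℕ → ℂ) :
    ∑ χ : DirichletCharacter ℂ p, ‖∑ n ∈ Ico 1 p, A n * χ (n : ZMod p)‖ ^ 2 =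
      ((p : ℝ) - 1) * ∑ n ∈ Ico 1 p, ‖A n‖ ^ 2 := by
  have := Fact.mk hp
  have h1 : ((∑ χ : DirichletCharacter ℂ p, ‖∑ n ∈ Ico 1 p, A n * χ (n : ZMod p)‖ ^ 2 : ℝ) : ℂ) =
      (((p : ℝ) - 1) * ∑ n ∈ Ico 1 p, ‖A n‖ ^ 2 : ℝ) := by
    push_cast
    have h2 : ∀ χ : DirichletCharacter ℂ p,
        ((‖∑ n ∈ Ico 1 p, A n * χ (n : ZMod p)‖ : ℝ) : ℂ) ^ 2 =
        ∑ m ∈ Ico 1 p, ∑ n ∈ Ico 1 p,
          (starRingEnd ℂ) (A m) * A n * (χ (m : ZMod p)⁻¹ * χ (n : ZMod p)) := by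
      intro χ
      rw [← Complex.conj_mul', map_sum, Finset.sum_mul_sum]
      refine Finset.sum_congr rfl fun m hm => Finset.sum_congr rfl fun n _ => ?_
      rw [char_inv χ _ (isUnit_of_mem hp hm), map_mul]
      ring
    rw [Finset.sum_congr rfl fun χ _ => h2 χ, Finset.sum_comm]
    rw [Finset.mul_sum]
    refine Finset.sum_congr rfl fun m hm => ?_
    rw [Finset.sum_comm]
    have h3 : ∀ n ∈ Ico 1 p, (∑ χ : DirichletCharacter ℂ p,
        (starRingEnd ℂ) (A m) * A n * (χ (m : ZMod p)⁻¹ * χ (n : ZMod p))) =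
        if m = n then (starRingEnd ℂ) (A m) * A n * ((p : ℂ) - 1) else 0 := by
      intro n hn
      rw [← Finset.mul_sum, DirichletCharacter.sum_char_inv_mul_char_eq ℂ (isUnit_of_mem hp hm)]
      by_cases hmn : m = n
      · subst hmn
        rw [if_pos rfl, if_pos rfl, Nat.totient_prime hp, Nat.cast_sub hp.one_lt.le, Nat.cast_one]
      · rw [if_neg hmn, if_neg (fun h => hmn (cast_inj hm hn h)), mul_zero]
    rw [Finset.sum_congr rfl h3, Finset.sum_ite_eq, if_pos hm, Complex.conj_mul']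
    ring
  exact_mod_cast h1

/-- Multiplication by `u` permutes the residues. -/
theorem sum_mul_mod {p : ℕ} (hp : p.Prime) {u : ℕ} (hu : u ∈ Ico 1 p) (F : ℕ → ℂ) :
    ∑ t ∈ Ico 1 p, F (t * u % p) = ∑ t ∈ Ico 1 p, F t := by
  have hcop : Nat.Coprime p u := by
    rw [hp.coprime_iff_not_dvd]
    intro h
    rw [mem_Ico] at hu
    have := Nat.le_of_dvd (by omega) h
    omega
  have hinj : Set.InjOn (fun t => t * u % p) (Ico 1 p : Finset ℕ) := by
    intro t ht s hs h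
    have ht' := Finset.mem_Ico.1 (Finset.mem_coe.1 ht)
    have hs' := Finset.mem_Ico.1 (Finset.mem_coe.1 hs)
    have h' : t * u ≡ s * u [MOD p] := h
    exact Nat.ModEq.eq_of_lt_of_lt (Nat.ModEq.cancel_right_of_coprime hcop h') ht'.2 hs'.2
  have hmap : (Ico 1 p).image (fun t => t * u % p) ⊆ Ico 1 p := by
    intro s hs
    rw [mem_image] at hs
    obtain ⟨t, ht, rfl⟩ := hs
    rw [mem_Ico] at ht ⊢
    refine ⟨?_, Nat.mod_lt _ hp.pos⟩
    rw [Nat.one_le_iff_ne_zero]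
    intro h
    have h' : p ∣ t * u := Nat.dvd_of_mod_eq_zero h
    have := Nat.le_of_dvd (by omega) (hcop.dvd_of_dvd_mul_right h')
    omega
  have heq : (Ico 1 p).image (fun t => t * u % p) = Ico 1 p :=
    Finset.eq_of_subset_of_card_le hmap (by rw [Finset.card_image_of_injOn hinj])
  calc ∑ t ∈ Ico 1 p, F (t * u % p) = ∑ t ∈ (Ico 1 p).image (fun t => t * u % p), F t :=
        (Finset.sum_image hinj).symm
    _ = _ := by rw [heq]

/-- The transform of the sifted sum. -/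
theorem transform {p : ℕ} (hp : p.Prime) {W : Finset ℕ} (hW : ∀ w ∈ W, 1 ≤ w ∧ w < p)
    (χ : DirichletCharacter ℂ p) (g : ℕ → ℂ) :
    ∑ t ∈ Ico 1 p, (∑ u ∈ Ico 1 p, if t * u % p ∈ W then g u else 0) * χ (t : ZMod p) =
      (∑ w ∈ W, χ (w : ZMod p)) * ∑ u ∈ Ico 1 p, g u * χ (u : ZMod p)⁻¹ := by
  have h0 : ∑ t ∈ Ico 1 p, (∑ u ∈ Ico 1 p, if t * u % p ∈ W then g u else 0) * χ (t : ZMod p) =
      ∑ u ∈ Ico 1 p, ∑ t ∈ Ico 1 p, (if t * u % p ∈ W then g u else 0) * χ (t : ZMod p) := by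
    rw [Finset.sum_comm]
    exact Finset.sum_congr rfl fun t _ => Finset.sum_mul _ _ _
  rw [h0, Finset.mul_sum]
  refine Finset.sum_congr rfl fun u hu => ?_
  have hu' := isUnit_of_mem hp hu
  have h1 : ∀ t ∈ Ico 1 p, (if t * u % p ∈ W then g u else 0) * χ (t : ZMod p) =
      (fun s : ℕ => if s ∈ W then g u * χ (u : ZMod p)⁻¹ * χ (s : ZMod p) else 0) (t * u % p) := by
    intro t _
    have h2 : ((t * u % p : ℕ) : ZMod p) = (t : ZMod p) * (u : ZMod p) := by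
      rw [ZMod.natCast_mod, Nat.cast_mul]
    have h3 : χ (t : ZMod p) = χ (u : ZMod p)⁻¹ * χ ((t * u % p : ℕ) : ZMod p) := by
      rw [h2, ← map_mul]
      congr 1
      rw [mul_comm (t : ZMod p), ← mul_assoc, ZMod.inv_mul_of_unit _ hu', one_mul]
    dsimp only
    by_cases h : t * u % p ∈ W
    · rw [if_pos h, if_pos h, mul_assoc, ← h3]
    · rw [if_neg h, if_neg h, zero_mul]
  rw [Finset.sum_congr rfl h1, sum_mul_mod hp hu
    (fun s : ℕ => if s ∈ W then g u * χ (u : ZMod p)⁻¹ * χ (s : ZMod p) else 0),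
    ← Finset.sum_filter]
  have h4 : (Ico 1 p).filter (fun s => s ∈ W) = W := by
    ext s
    rw [mem_filter, mem_Ico]
    exact ⟨fun h => h.2, fun h => ⟨hW s h, h⟩⟩
  rw [h4, ← Finset.mul_sum]
  ring

theorem spec_of_char (p : ℕ) (W : Finset ℕ) (κ : ℝ) (hp : p.Prime) (hκ : 0 ≤ κ)
    (hW : ∀ w ∈ W, 1 ≤ w ∧ w < p)
    (hχ : ∀ χ : DirichletCharacter ℂ p, χ ≠ 1 →
      ‖∑ w ∈ W, χ (w : ZMod p)‖ ^ 2 ≤ κ * (W.card : ℝ) ^ 2) : Spec p W κ := by
  intro g
  have := Fact.mk hp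
  have hp1 : (0 : ℝ) < (p : ℝ) - 1 := by
    have : (1 : ℝ) < p := by exact_mod_cast hp.one_lt
    linarith
  set c : ℝ := (W.card : ℝ) / ((p : ℝ) - 1) * ∑ u ∈ Ico 1 p, g u with hc
  set K : ℕ → ℂ := fun t => (∑ u ∈ Ico 1 p, if t * u % p ∈ W then (g u : ℂ) else 0) - (c : ℂ)
    with hK
  have hKr : ∀ t, ‖K t‖ ^ 2 =
      ((∑ u ∈ Ico 1 p, if t * u % p ∈ W then g u else 0) - c) ^ 2 := by
    intro t
    have h1 : K t = (((∑ u ∈ Ico 1 p, if t * u % p ∈ W then g u else 0) - c : ℝ) : ℂ) := by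
      rw [hK]
      push_cast
      congr 1
      refine Finset.sum_congr rfl fun u _ => ?_
      split_ifs <;> simp
    rw [h1, Complex.norm_real, Real.norm_eq_abs, sq_abs]
  -- the transform of `K`
  have hKt : ∀ χ : DirichletCharacter ℂ p,
      ‖∑ t ∈ Ico 1 p, K t * χ (t : ZMod p)‖ ^ 2 ≤
        κ * (W.card : ℝ) ^ 2 * ‖∑ u ∈ Ico 1 p, (g u : ℂ) * χ (u : ZMod p)‖ ^ 2 := by
    intro χ
    have h1 : ∑ t ∈ Ico 1 p, K t * χ (t : ZMod p) =
        (∑ w ∈ W, χ (w : ZMod p)) * (∑ u ∈ Ico 1 p, (g u : ℂ) * χ (u : ZMod p)⁻¹) -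
          c * ∑ t ∈ Ico 1 p, χ (t : ZMod p) := by
      rw [← transform hp hW χ (fun u => (g u : ℂ)), Finset.mul_sum, ← Finset.sum_sub_distrib]
      refine Finset.sum_congr rfl fun t _ => ?_
      rw [hK]
      ring
    have h2 : ‖∑ u ∈ Ico 1 p, (g u : ℂ) * χ (u : ZMod p)⁻¹‖ =
        ‖∑ u ∈ Ico 1 p, (g u : ℂ) * χ (u : ZMod p)‖ := by
      rw [← Complex.norm_conj (∑ u ∈ Ico 1 p, (g u : ℂ) * χ (u : ZMod p)), map_sum]
      congr 1
      refine Finset.sum_congr rfl fun u hu => ?_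
      rw [char_inv χ _ (isUnit_of_mem hp hu), map_mul, Complex.conj_ofReal]
    by_cases h : χ = 1
    · have h3 : ∀ n ∈ Ico 1 p, χ (n : ZMod p) = 1 := by
        intro n hn
        rw [h]
        exact MulChar.one_apply (isUnit_of_mem hp hn)
      have h4 : ∑ t ∈ Ico 1 p, χ (t : ZMod p) = (p : ℂ) - 1 := by
        rw [Finset.sum_congr rfl h3, Finset.sum_const, Nat.card_Ico, nsmul_eq_mul, mul_one,
          Nat.cast_sub hp.one_lt.le, Nat.cast_one]
      have h5 : ∑ w ∈ W, χ (w : ZMod p) = (W.card : ℂ) := by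
        rw [Finset.sum_congr rfl fun w hw => h3 w (by rw [mem_Ico]; exact hW w hw),
          Finset.sum_const, nsmul_eq_mul, mul_one]
      have h6 : ∑ u ∈ Ico 1 p, (g u : ℂ) * χ (u : ZMod p)⁻¹ = ∑ u ∈ Ico 1 p, (g u : ℂ) := by
        refine Finset.sum_congr rfl fun u hu => ?_
        rw [char_inv χ _ (isUnit_of_mem hp hu), h3 u hu, map_one, mul_one]
      have h7 : ∑ t ∈ Ico 1 p, K t * χ (t : ZMod p) = 0 := by
        rw [h1, h4, h5, h6, hc]
        push_cast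
        have : (p : ℂ) - 1 ≠ 0 := by
          have : (((p : ℝ) - 1 : ℝ) : ℂ) ≠ 0 := by exact_mod_cast hp1.ne'
          simpa using this
        field_simp
        ring
      rw [h7, norm_zero]
      have : 0 ≤ κ * (W.card : ℝ) ^ 2 := mul_nonneg hκ (sq_nonneg _)
      have h20 : (0 : ℝ) ≤ ‖∑ u ∈ Ico 1 p, (g u : ℂ) * χ (u : ZMod p)‖ ^ 2 := sq_nonneg _
      rw [zero_pow two_ne_zero]
      exact mul_nonneg this h20
    · -- a nontrivial character
      have h4 : ∑ t ∈ Ico 1 p, χ (t : ZMod p) = 0 := by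
        have h8 : ∑ t ∈ Ico 1 p, χ (t : ZMod p) = ∑ a : ZMod p, χ a := by
          have h9 : ∑ a : ZMod p, χ a = ∑ t ∈ range p, χ (t : ZMod p) := by
            refine Finset.sum_nbij' (fun a => a.val) (fun t => (t : ZMod p)) ?_ ?_ ?_ ?_ ?_
            · intro a _
              rw [mem_range]
              exact ZMod.val_lt a
            · intro t _
              exact mem_univ _
            · intro a _
              exact ZMod.natCast_zmod_val a
            · intro t ht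
              rw [mem_range] at ht
              exact ZMod.val_natCast_of_lt ht
            · intro a _
              rw [ZMod.natCast_zmod_val]
          rw [h9, Finset.range_eq_Ico, Finset.sum_eq_sum_Ico_succ_bot hp.pos]
          rw [Nat.cast_zero, MulChar.map_zero, zero_add]
        rw [h8]
        exact MulChar.sum_eq_zero_of_ne_one h
      rw [h1, h4, mul_zero, sub_zero, norm_mul, mul_pow, h2]
      exact mul_le_mul_of_nonneg_right (hχ χ h) (by positivity)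
  have h10 := parseval hp K
  have h11 := parseval hp (fun u => (g u : ℂ))
  have h12 : ((p : ℝ) - 1) * ∑ n ∈ Ico 1 p, ‖K n‖ ^ 2 ≤
      ((p : ℝ) - 1) * (κ * (W.card : ℝ) ^ 2 * ∑ u ∈ Ico 1 p, g u ^ 2) := by
    calc ((p : ℝ) - 1) * ∑ n ∈ Ico 1 p, ‖K n‖ ^ 2
        = ∑ χ : DirichletCharacter ℂ p, ‖∑ n ∈ Ico 1 p, K n * χ (n : ZMod p)‖ ^ 2 := h10.symm
      _ ≤ ∑ χ : DirichletCharacter ℂ p, κ * (W.card : ℝ) ^ 2 *
          ‖∑ u ∈ Ico 1 p, (g u : ℂ) * χ (u : ZMod p)‖ ^ 2 := Finset.sum_le_sum fun χ _ => hKt χ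
      _ = κ * (W.card : ℝ) ^ 2 * (((p : ℝ) - 1) * ∑ n ∈ Ico 1 p, ‖(g n : ℂ)‖ ^ 2) := by
          rw [← Finset.mul_sum, h11]
      _ = ((p : ℝ) - 1) * (κ * (W.card : ℝ) ^ 2 * ∑ u ∈ Ico 1 p, g u ^ 2) := by
          have : ∀ n, ‖(g n : ℂ)‖ ^ 2 = g n ^ 2 := by
            intro n
            rw [Complex.norm_real, Real.norm_eq_abs, sq_abs]
          simp_rw [this]
          ring
  have h13 := le_of_mul_le_mul_left h12 hp1
  simpa only [hKr] using h13

end Pool.Agent.Helper7.TS.spec_of_char
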